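import Pool.Agent.H76.GH.Targets

/-!
Row CVF of the board ghw: the functional equation passes to the convolutions.
-/

set_option autoImplicit false

namespace Pool.Agent.H76.GH.CVF

open MeasureTheory Pool.Agent.H34.GM Pool.Agent.H34.GZ Pool.Agent.H34.GU Pool.Agent.H34.GA
open Pool.Agent.H23.GB Pool.Agent.H76.GH

/-- interchange of the sum and the integral against a kernel -/
lemma inter {h : ℝ → ℂ} {A : ℝ} (hh : Hk h A) (G : ℕ → ℝ → ℂ) (b : ℕ → ℝ)
    (hG : ∀ n, Continuous (G n)) (hb : ∀ n v, |v| ≤ 1 → ‖G n v‖ ≤ b n) (hs : Summable b) :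
    ∑' n, ∫ v, h v * G n v = ∫ v, h v * ∑' n, G n v := by
  have hA : 0 ≤ A := (norm_nonneg _).trans (hh.bd 0)
  have hbd : ∀ n v, ‖h v * G n v‖ ≤ (Set.Icc (-1 : ℝ) 1).indicator (fun _ => A * b n) v := by
    intro n v
    by_cases hv : v ∈ Set.Icc (-1 : ℝ) 1
    · rw [Set.indicator_of_mem hv, norm_mul]
      exact mul_le_mul (hh.bd v) (hb n v (abs_le.2 hv)) (norm_nonneg _) hA
    · rw [Set.indicator_of_notMem hv]
      have h0 : h v = 0 := by
        by_contra hc
        exact hv (abs_le.1 (hh.supp v hc))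
      rw [h0]
      simp
  have hii : ∀ n, Integrable ((Set.Icc (-1 : ℝ) 1).indicator (fun _ => A * b n)) := by
    intro n
    rw [integrable_indicator_iff measurableSet_Icc]
    exact integrableOn_const (by simp) (ENNReal.coe_ne_top)
  have hint : ∀ n, Integrable (fun v => h v * G n v) := by
    intro n
    refine (hii n).mono' (hh.meas.mul (hG n).aestronglyMeasurable) ?_
    exact Filter.Eventually.of_forall (hbd n)
  have hsum : Summable fun n => ∫ v, ‖h v * G n v‖ := by
    refine Summable.of_nonneg_of_le (fun n => integral_nonneg fun _ => norm_nonneg _)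
      (fun n => ?_) (hs.mul_left (2 * A))
    calc ∫ v, ‖h v * G n v‖ ≤ ∫ v, (Set.Icc (-1 : ℝ) 1).indicator (fun _ => A * b n) v :=
          integral_mono (hint n).norm (hii n) (hbd n)
      _ = 2 * A * b n := by
          rw [integral_indicator measurableSet_Icc, setIntegral_const]
          simp only [Measure.real, Real.volume_Icc, smul_eq_mul]
          rw [ENNReal.toReal_ofReal (by norm_num)]
          ring
  have h1 := (hasSum_integral_of_summable_integral_norm hint hsum).tsum_eq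
  rw [h1]
  refine integral_congr_ae (Filter.Eventually.of_forall fun v => ?_)
  simp only []
  exact tsum_mul_left

/-- the sum of the convolutions is the convolution of the sum -/
lemma sum_int {m K : ℕ} (hm : 1 ≤ m) (hK : m * (m + 2) ≤ K) {h : ℝ → ℂ} {A : ℝ} (hh : Hk h A)
    {ψ : ℝ → ℂ} {M' : ℝ} (hψ : ContinuousOn ψ (Set.Ioi 0)) (hM' : 0 ≤ M')
    (hb : ∀ r : ℝ, 0 < r → ‖ψ r‖ ≤ M' * r ^ K) {lam : ℕ → ℂ} {B : ℝ}
    (hl : ∀ n : ℕ, 1 ≤ n → ‖(n : ℂ) ^ (((m : ℂ) - 1) / 2) * lam n‖ ≤ B * (n : ℝ) ^ m)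
    {r : ℝ} (hr : 0 < r) {κ : ℝ} (hκ : |κ| ≤ 1) :
    ∑' n : ℕ, (if 1 ≤ n then (n : ℂ) ^ (((m : ℂ) - 1) / 2) * lam n *
      ∫ v, h v * ψ (r * (n : ℝ) ^ (-(1 / (m : ℝ))) * Real.exp (κ * v)) else 0) =
    ∫ v, h v * thA m ψ lam (r * Real.exp (κ * v)) := by
  have hmr : (1 : ℝ) ≤ m := by exact_mod_cast hm
  have hm0 : (m : ℝ) ≠ 0 := by positivity
  have hB : 0 ≤ B := by
    have := hl 1 le_rfl
    simp only [Nat.cast_one, one_pow, mul_one] at this
    exact (norm_nonneg _).trans this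
  obtain ⟨G, hGd⟩ : ∃ G : ℕ → ℝ → ℂ, G = fun (n : ℕ) (v : ℝ) => if 1 ≤ n then
    (n : ℂ) ^ (((m : ℂ) - 1) / 2) * lam n *
      ψ (r * Real.exp (κ * v) * (n : ℝ) ^ (-(1 / (m : ℝ)))) else 0 := ⟨_, rfl⟩
  obtain ⟨b, hbd⟩ : ∃ b : ℕ → ℝ, b = fun n : ℕ => B * (M' * (r * Real.exp 1) ^ K) *
    ((n : ℝ) ^ 2)⁻¹ := ⟨_, rfl⟩
  have hG : ∀ n, Continuous (G n) := by
    intro n
    rw [hGd]
    by_cases hn : 1 ≤ n
    · simp only [hn, if_true]
      have hn0 : (0 : ℝ) < n := by exact_mod_cast hn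
      refine continuous_const.mul ?_
      refine hψ.comp_continuous (by fun_prop) (fun v => ?_)
      exact Set.mem_Ioi.2 (by positivity)
    · simp only [hn, if_false]
      exact continuous_const
  have hGb : ∀ n v, |v| ≤ 1 → ‖G n v‖ ≤ b n := by
    intro n v hv
    rw [hGd, hbd]
    by_cases hn : 1 ≤ n
    · simp only [hn, if_true]
      have hn0 : (0 : ℝ) < n := by exact_mod_cast hn
      have hn1 : (1 : ℝ) ≤ n := by exact_mod_cast hn
      rw [norm_mul]
      have h1 := hl n hn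
      have h2 := hb (r * Real.exp (κ * v) * (n : ℝ) ^ (-(1 / (m : ℝ)))) (by positivity)
      have h3 : (r * Real.exp (κ * v) * (n : ℝ) ^ (-(1 / (m : ℝ)))) ^ K ≤
          (r * Real.exp 1) ^ K * ((n : ℝ) ^ (m + 2))⁻¹ := by
        rw [mul_pow]
        refine mul_le_mul ?_ ?_ (by positivity) (by positivity)
        · refine pow_le_pow_left₀ (by positivity) ?_ K
          refine mul_le_mul_of_nonneg_left ?_ hr.le
          rw [Real.exp_le_exp]
          have : |κ * v| ≤ 1 := by
            rw [abs_mul]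
            exact mul_le_one₀ hκ (abs_nonneg _) hv
          exact (le_abs_self _).trans this
        · rw [← Real.rpow_natCast, ← Real.rpow_mul hn0.le, ← Real.rpow_natCast,
            ← Real.rpow_neg hn0.le]
          refine Real.rpow_le_rpow_of_exponent_le hn1 ?_
          have h4 : ((m * (m + 2) : ℕ) : ℝ) ≤ K := by exact_mod_cast hK
          push_cast at h4 ⊢
          have h5 : (m : ℝ) + 2 ≤ 1 / (m : ℝ) * K := by
            rw [one_div, inv_mul_eq_div, le_div_iff₀ (by positivity)]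
            linarith
          linarith
      calc _ ≤ B * (n : ℝ) ^ m * (M' * ((r * Real.exp 1) ^ K * ((n : ℝ) ^ (m + 2))⁻¹)) := by
            refine mul_le_mul h1 (h2.trans (mul_le_mul_of_nonneg_left h3 hM')) (norm_nonneg _)
              (by positivity)
        _ = B * (M' * (r * Real.exp 1) ^ K) * ((n : ℝ) ^ m * ((n : ℝ) ^ (m + 2))⁻¹) := by ring
        _ = B * (M' * (r * Real.exp 1) ^ K) * ((n : ℝ) ^ 2)⁻¹ := by
            congr 1
            rw [pow_add]
            field_simp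
    · simp only [hn, if_false, norm_zero]
      positivity
  have hs : Summable b := by
    rw [hbd]
    exact (Real.summable_nat_pow_inv.2 (by norm_num)).mul_left _
  have h1 := inter hh G b hG hGb hs
  have h2 : ∀ n : ℕ, (if 1 ≤ n then (n : ℂ) ^ (((m : ℂ) - 1) / 2) * lam n *
      ∫ v, h v * ψ (r * (n : ℝ) ^ (-(1 / (m : ℝ))) * Real.exp (κ * v)) else 0) =
      ∫ v, h v * G n v := by
    intro n
    rw [hGd]
    by_cases hn : 1 ≤ n
    · simp only [hn, if_true]
      rw [← integral_const_mul]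
      refine integral_congr_ae (Filter.Eventually.of_forall fun v => ?_)
      simp only []
      rw [show r * (n : ℝ) ^ (-(1 / (m : ℝ))) * Real.exp (κ * v) =
        r * Real.exp (κ * v) * (n : ℝ) ^ (-(1 / (m : ℝ))) by ring]
      ring
    · simp only [hn, if_false, mul_zero, integral_zero]
  simp_rw [h2]
  rw [h1]
  refine integral_congr_ae (Filter.Eventually.of_forall fun v => ?_)
  simp only []
  unfold thA
  rw [hGd]

/-- the dual kernel -/
lemma hk_dual {m : ℕ} {h : ℝ → ℂ} {A : ℝ} (hh : Hk h A) :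
    Hk (fun v => (starRingEnd ℂ) (h v) * (Real.exp (-(v * m)) : ℂ)) (A * Real.exp m) := by
  have hA : 0 ≤ A := (norm_nonneg _).trans (hh.bd 0)
  refine ⟨?_, ?_, ?_⟩
  · refine AEStronglyMeasurable.mul ?_ ?_
    · exact Complex.continuous_conj.comp_aestronglyMeasurable hh.meas
    · exact (by fun_prop : Continuous fun v : ℝ =>
        (Real.exp (-(v * m)) : ℂ)).aestronglyMeasurable
  · intro v
    rw [norm_mul, RCLike.norm_conj, Complex.norm_real, Real.norm_eq_abs, Real.abs_exp]
    by_cases h0 : h v = 0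
    · rw [h0, norm_zero, zero_mul]
      positivity
    · refine mul_le_mul (hh.bd v) ?_ (Real.exp_pos _).le hA
      rw [Real.exp_le_exp]
      have h1 := (abs_le.1 (hh.supp v h0)).1
      have h2 : (0 : ℝ) ≤ m := Nat.cast_nonneg m
      nlinarith
  · intro v hv
    refine hh.supp v (fun h0 => hv ?_)
    rw [h0]
    simp

theorem pf_CVF : T_CVF := by
  intro m K h A hm hK hh N d M B r0 lam ψ ψ' hN hd hM hr0 hψ hψ' hsupp hdec hlam hFE r hr
  have hmr : (1 : ℝ) ≤ m := by exact_mod_cast hm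
  have hm0 : (m : ℝ) ≠ 0 := by positivity
  have hN0 : 0 < N := by linarith
  have hr00 : 0 < r0 := by linarith
  have hκ1 : |(1 / (m : ℝ))| ≤ 1 := by
    rw [abs_of_nonneg (by positivity), div_le_one (by positivity)]
    exact hmr
  have hκ2 : |(-(1 / (m : ℝ)))| ≤ 1 := by rwa [abs_neg]
  -- the direct weight is bounded
  obtain ⟨C0, hC0⟩ : ∃ C0 : ℝ, ∀ x ∈ Set.Icc r0⁻¹ r0, ‖ψ x‖ ≤ C0 := by
    refine isCompact_Icc.exists_bound_of_continuousOn (hψ.mono ?_)
    intro x hx
    exact lt_of_lt_of_le (inv_pos.2 hr00) hx.1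
  have hbψ : ∀ x : ℝ, 0 < x → ‖ψ x‖ ≤ (|C0| * r0 ^ K) * x ^ K := by
    intro x hx
    by_cases h0 : ψ x = 0
    · rw [h0, norm_zero]
      positivity
    · have h1 := hsupp x hx h0
      have h2 : 1 ≤ r0 ^ K * x ^ K := by
        rw [← mul_pow]
        refine one_le_pow₀ ?_
        have := mul_le_mul_of_nonneg_left h1.1 hr00.le
        rwa [mul_inv_cancel₀ hr00.ne'] at this
      calc ‖ψ x‖ ≤ |C0| := (hC0 x h1).trans (le_abs_self _)
        _ ≤ |C0| * (r0 ^ K * x ^ K) := le_mul_of_one_le_right (abs_nonneg _) h2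
        _ = _ := by ring
  have hbψ' : ∀ x : ℝ, 0 < x → ‖ψ' x‖ ≤ (M * (d⁻¹) ^ K) * x ^ K := by
    intro x hx
    refine (hdec x hx).trans ?_
    calc M * min 1 ((x / d) ^ K) ≤ M * (x / d) ^ K :=
          mul_le_mul_of_nonneg_left (min_le_right _ _) hM
      _ = _ := by rw [div_eq_mul_inv, mul_pow]; ring
  have e1 := sum_int hm hK hh hψ (by positivity) hbψ hlam hr hκ2
  have hρ : 0 < N ^ (1 / (m : ℝ)) / r := by positivity
  have e2 := sum_int hm hK (hk_dual (m := m) hh) hψ' (by positivity) hbψ' hlam hρ hκ1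
  have e3 : thA m (cv m h ψ) lam r = ∫ v, h v * thA m ψ lam (r * Real.exp (-(1 / (m : ℝ)) * v)) := by
    rw [← e1]
    unfold thA cv
    refine tsum_congr fun n => ?_
    split_ifs
    · congr 1
      refine integral_congr_ae (Filter.Eventually.of_forall fun v => ?_)
      simp only []
      rw [show -(v / (m : ℝ)) = -(1 / (m : ℝ)) * v by ring]
    · rfl
  have e4 : thA m (cw m h ψ') lam (N ^ (1 / (m : ℝ)) / r) =
      ∫ v, (starRingEnd ℂ) (h v) * (Real.exp (-(v * m)) : ℂ) *
        thA m ψ' lam (N ^ (1 / (m : ℝ)) / r * Real.exp (1 / (m : ℝ) * v)) := by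
    rw [← e2]
    unfold thA cw
    refine tsum_congr fun n => ?_
    split_ifs
    · congr 1
      refine integral_congr_ae (Filter.Eventually.of_forall fun v => ?_)
      simp only []
      rw [show v / (m : ℝ) = 1 / (m : ℝ) * v by ring]
    · rfl
  rw [e3, e4, ← integral_conj, ← integral_const_mul]
  refine integral_congr_ae (Filter.Eventually.of_forall fun v => ?_)
  simp only []
  rw [hFE _ (by positivity)]
  have h1 : N ^ (1 / (m : ℝ)) / (r * Real.exp (-(1 / (m : ℝ)) * v)) =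
      N ^ (1 / (m : ℝ)) / r * Real.exp (1 / (m : ℝ) * v) := by
    rw [neg_mul, Real.exp_neg]
    field_simp
  have h2 : (r * Real.exp (-(1 / (m : ℝ)) * v)) ^ (m ^ 2) = r ^ (m ^ 2) * Real.exp (-(v * m)) := by
    rw [mul_pow, ← Real.exp_nat_mul]
    congr 2
    push_cast
    field_simp
  rw [h1, h2, map_mul, map_mul, Complex.conj_conj, Complex.conj_ofReal]
  push_cast
  ring

end Pool.Agent.H76.GH.CVF
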