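import Pool.Agent.H23.GB.TargetsA

/-!
Board gh (hybrid fourth moment, MP_52e316_nt): the weight of the hybrid fourth moment is replaced by the
product of the `min 1 |w|`, by a convolution in `log r` of the two weights of the functional equation.
-/

namespace Pool.Agent.H76.GH

open MeasureTheory Pool.Agent.H34.GM Pool.Agent.H34.GZ Pool.Agent.H34.GU Pool.Agent.H34.GA
open Pool.Agent.H23.GB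

/-! ### definitions -/

/-- bounded kernels with support in `[-1, 1]` -/
structure Hk (h : ℝ → ℂ) (A : ℝ) : Prop where
  meas : AEStronglyMeasurable h
  bd : ∀ v, ‖h v‖ ≤ A
  supp : ∀ v, h v ≠ 0 → |v| ≤ 1

/-- convolution on the direct side -/
noncomputable def cv (m : ℕ) (h : ℝ → ℂ) (ψ : ℝ → ℂ) (r : ℝ) : ℂ :=
  ∫ v : ℝ, h v * ψ (r * Real.exp (-(v / m)))

/-- convolution on the dual side -/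
noncomputable def cw (m : ℕ) (h : ℝ → ℂ) (ψ : ℝ → ℂ) (r : ℝ) : ℂ :=
  ∫ v : ℝ, (starRingEnd ℂ) (h v) * (Real.exp (-(v * m)) : ℂ) * ψ (r * Real.exp (v / m))

/-- the factor of the Mellin transform -/
noncomputable def Lh (m : ℕ) (h : ℝ → ℂ) (s : ℂ) : ℂ :=
  ∫ v : ℝ, h v * Complex.exp (-((v : ℂ) * (s + ((m : ℂ) - 1) / 2)))

/-- the one sided cut-off of the exponential with the exponent `a` -/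
noncomputable def ha (m : ℕ) (a : ℂ) (v : ℝ) : ℂ :=
  (if a.re ≤ 1 / 2 then Set.indicator (Set.Icc (0 : ℝ) 1)
    (fun v : ℝ => ((1 - v : ℝ) : ℂ) * Complex.exp ((v : ℂ) * (a + ((m : ℂ) - 1) / 2))) v
  else Set.indicator (Set.Icc (-1 : ℝ) 0)
    (fun v : ℝ => ((1 + v : ℝ) : ℂ) * Complex.exp ((v : ℂ) * (a + ((m : ℂ) - 1) / 2))) v)

/-! ### targets -/

/-- the approximate functional equation with two constants -/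
def T_AFG : Prop := ∀ m : ℕ, 1 ≤ m → ∀ r0 B ε A0 : ℝ, 1 ≤ r0 → 0 < B → 0 < ε → 0 ≤ A0 →
  ∃ (k : ℝ → ℝ) (K : ℕ) (C : ℝ), Krn k ∧ m * (m + 2) ≤ K ∧ 0 < C ∧
  ∀ (N d M E : ℝ) (lam : ℕ → ℂ) (ψ ψ' : ℝ → ℂ), 1 ≤ N → 0 < d → d ≤ 1 / 2 → 0 ≤ M → 0 ≤ E →
  ContinuousOn ψ (Set.Ioi 0) → ContinuousOn ψ' (Set.Ioi 0) →
  (∀ r : ℝ, 0 < r → ψ r ≠ 0 → r0⁻¹ ≤ r ∧ r ≤ r0) →
  (∀ r : ℝ, 0 < r → ‖ψ' r‖ ≤ M * min 1 ((r / d) ^ K)) →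
  (∀ n : ℕ, 1 ≤ n → ‖(n : ℂ) ^ (((m : ℂ) - 1) / 2) * lam n‖ ≤ B * (n : ℝ) ^ m) →
  (∀ r : ℝ, 0 < r → thA m ψ lam r = ((r ^ (m ^ 2) * N ^ (-((m : ℝ) / 2)) : ℝ) : ℂ) *
    (starRingEnd ℂ) (thA m ψ' lam (N ^ (1 / (m : ℝ)) / r))) →
  (∀ t : ℝ, ‖MelA m ψ (1 / 2 + t * Complex.I)‖ ≤ E) →
  (∀ t : ℝ, ‖MelA m ψ' (1 / 2 + t * Complex.I)‖ ≤ E) →
  ∀ X : ℕ, C * (N * d⁻¹ ^ m) ^ (1 / 2 : ℝ) * (N / d) ^ ε ≤ X → ∀ t : ℝ,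
    ‖LmA m ψ lam (1 / 2 + t * Complex.I)‖ ≤ C * (N / d) ^ ε * (M * (d / N) ^ A0 +
      E * ∫ τ : ℝ, k τ * ‖SX lam X (1 / 2 + ((t + τ : ℝ) : ℂ) * Complex.I)‖)

/-- the cut-off of the exponential -/
def T_CHI : Prop := ∃ c : ℝ, 0 < c ∧ ∀ (m : ℕ) (a : ℂ), 1 ≤ m →
  Hk (ha m a) (Real.exp (m / 2)) ∧ ∀ t : ℝ,
    c * min 1 ‖(1 / 2 + t * Complex.I : ℂ) - a‖ ≤
      ‖Lh m (ha m a) (1 / 2 + t * Complex.I)‖ * ‖(1 / 2 + t * Complex.I : ℂ) - a‖ ∧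
    ‖Lh m (ha m a) (1 / 2 + t * Complex.I)‖ * ‖(1 / 2 + t * Complex.I : ℂ) - a‖ ≤ 2

/-- the convolution on the direct side -/
def T_CVA : Prop := ∀ (m : ℕ) (h : ℝ → ℂ) (A : ℝ), 1 ≤ m → Hk h A → ∀ (ψ : ℝ → ℂ) (r0 : ℝ),
  1 ≤ r0 → ContinuousOn ψ (Set.Ioi 0) → (∀ r : ℝ, 0 < r → ψ r ≠ 0 → r0⁻¹ ≤ r ∧ r ≤ r0) →
  ContinuousOn (cv m h ψ) (Set.Ioi 0) ∧
  (∀ r : ℝ, 0 < r → cv m h ψ r ≠ 0 → (3 * r0)⁻¹ ≤ r ∧ r ≤ 3 * r0) ∧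
  ∀ s : ℂ, MelA m (cv m h ψ) s = Lh m h s * MelA m ψ s

/-- the convolution on the dual side -/
def T_CVB : Prop := ∀ (m K : ℕ) (h : ℝ → ℂ) (A : ℝ), 1 ≤ m → m * (m + 2) ≤ K → Hk h A →
  ∀ (ψ : ℝ → ℂ) (M d : ℝ), 0 ≤ M → 0 < d → ContinuousOn ψ (Set.Ioi 0) →
  (∀ r : ℝ, 0 < r → ‖ψ r‖ ≤ M * min 1 ((r / d) ^ K)) →
  ContinuousOn (cw m h ψ) (Set.Ioi 0) ∧
  (∀ r : ℝ, 0 < r → ‖cw m h ψ r‖ ≤ 2 * A * Real.exp (m + K) * M * min 1 ((r / d) ^ K)) ∧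
  ∀ t : ℝ, ‖MelA m (cw m h ψ) (1 / 2 + t * Complex.I)‖ =
    ‖Lh m h (1 / 2 + t * Complex.I)‖ * ‖MelA m ψ (1 / 2 + t * Complex.I)‖

/-- the convolution of an admissible weight is admissible -/
def T_CVW : Prop := ∀ (m : ℕ) (h : ℝ → ℂ) (A : ℝ), 1 ≤ m → Hk h A → ∀ (ψ : ℝ → ℂ)
  (lam : ℕ → ℂ), Wc m ψ lam → Wc m (cv m h ψ) lam

/-- the functional equation passes to the convolutions -/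
def T_CVF : Prop := ∀ (m K : ℕ) (h : ℝ → ℂ) (A : ℝ), 1 ≤ m → m * (m + 2) ≤ K → Hk h A →
  ∀ (N d M B r0 : ℝ) (lam : ℕ → ℂ) (ψ ψ' : ℝ → ℂ), 1 ≤ N → 0 < d → 0 ≤ M → 1 ≤ r0 →
  ContinuousOn ψ (Set.Ioi 0) → ContinuousOn ψ' (Set.Ioi 0) →
  (∀ r : ℝ, 0 < r → ψ r ≠ 0 → r0⁻¹ ≤ r ∧ r ≤ r0) →
  (∀ r : ℝ, 0 < r → ‖ψ' r‖ ≤ M * min 1 ((r / d) ^ K)) →
  (∀ n : ℕ, 1 ≤ n → ‖(n : ℂ) ^ (((m : ℂ) - 1) / 2) * lam n‖ ≤ B * (n : ℝ) ^ m) →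
  (∀ r : ℝ, 0 < r → thA m ψ lam r = ((r ^ (m ^ 2) * N ^ (-((m : ℝ) / 2)) : ℝ) : ℂ) *
    (starRingEnd ℂ) (thA m ψ' lam (N ^ (1 / (m : ℝ)) / r))) →
  ∀ r : ℝ, 0 < r → thA m (cv m h ψ) lam r = ((r ^ (m ^ 2) * N ^ (-((m : ℝ) / 2)) : ℝ) : ℂ) *
    (starRingEnd ℂ) (thA m (cw m h ψ') lam (N ^ (1 / (m : ℝ)) / r))

/-- the iteration: the weights after the convolutions with a finite family of exponents -/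
def T_ITR : Prop := ∃ c : ℝ, 0 < c ∧ ∀ (m K q : ℕ), 1 ≤ m → m * (m + 2) ≤ K →
  ∃ D : ℝ, 1 ≤ D ∧ ∀ (a : Fin q → ℂ) (N d M B r0 : ℝ) (lam : ℕ → ℂ) (ψ ψ' : ℝ → ℂ),
  1 ≤ N → 0 < d → 0 ≤ M → 1 ≤ r0 →
  Wc m ψ lam → ContinuousOn ψ' (Set.Ioi 0) →
  (∀ r : ℝ, 0 < r → ψ r ≠ 0 → r0⁻¹ ≤ r ∧ r ≤ r0) →
  (∀ r : ℝ, 0 < r → ‖ψ' r‖ ≤ M * min 1 ((r / d) ^ K)) →
  (∀ n : ℕ, 1 ≤ n → ‖(n : ℂ) ^ (((m : ℂ) - 1) / 2) * lam n‖ ≤ B * (n : ℝ) ^ m) →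
  (∀ r : ℝ, 0 < r → thA m ψ lam r = ((r ^ (m ^ 2) * N ^ (-((m : ℝ) / 2)) : ℝ) : ℂ) *
    (starRingEnd ℂ) (thA m ψ' lam (N ^ (1 / (m : ℝ)) / r))) →
  ∃ (φ φ' : ℝ → ℂ) (ρ : ℝ → ℝ), Wc m φ lam ∧ ContinuousOn φ' (Set.Ioi 0) ∧
  (∀ r : ℝ, 0 < r → φ r ≠ 0 → (3 ^ q * r0)⁻¹ ≤ r ∧ r ≤ 3 ^ q * r0) ∧
  (∀ r : ℝ, 0 < r → ‖φ' r‖ ≤ D * M * min 1 ((r / d) ^ K)) ∧
  (∀ r : ℝ, 0 < r → thA m φ lam r = ((r ^ (m ^ 2) * N ^ (-((m : ℝ) / 2)) : ℝ) : ℂ) *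
    (starRingEnd ℂ) (thA m φ' lam (N ^ (1 / (m : ℝ)) / r))) ∧
  (∀ t : ℝ, ‖MelA m φ (1 / 2 + t * Complex.I)‖ =
    ρ t * ‖MelA m ψ (1 / 2 + t * Complex.I)‖) ∧
  (∀ t : ℝ, ‖MelA m φ' (1 / 2 + t * Complex.I)‖ =
    ρ t * ‖MelA m ψ' (1 / 2 + t * Complex.I)‖) ∧
  ∀ t : ℝ, 0 ≤ ρ t ∧ c ^ q * ∏ i, min 1 ‖(1 / 2 + t * Complex.I : ℂ) - a i‖ ≤
    ρ t * ∏ i, ‖(1 / 2 + t * Complex.I : ℂ) - a i‖ ∧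
    ρ t * ∏ i, ‖(1 / 2 + t * Complex.I : ℂ) - a i‖ ≤ 2 ^ q

/-- upper bound of the zeta integral of the bump function -/
def T_ZBU : Prop := ∀ (m : ℕ) (χ : ℝ → ℝ), 1 ≤ m → Prof χ → ∃ C : ℝ, 0 < C ∧
  ∀ δ : ℝ, 0 < δ → δ ≤ 1 / 2 → ∀ f : Mat m → ℂ, Cof m f 1 → ∀ t : ℝ,
    ‖ZA (bi m χ δ) f (1 / 2 + t * Complex.I - m)‖ ≤ C * δ ^ (m * m)

/-- one value on the critical line against short sums, with the weight `min 1 |w|` -/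
def T_HYG : Prop := ∀ m : ℕ, 1 ≤ m → ∀ ε : ℝ, 0 < ε → ∃ (k : ℝ → ℝ) (C : ℝ), Krn k ∧ 0 < C ∧
  ∀ (N : ℕ) [NeZero N] (T : ℕ → Finset (ZM m)) (D : Set (V m)), SysZ m N T D →
  ∀ (F : Mat m → VN m N → ℂ) (lam : ℕ → ℂ) (mu : Fin m → ℂ) (P : ℝ), CusA m N T F lam mu →
  nU D F = 1 → Lip D F P → 1 ≤ P → ∀ L : ℂ → ℂ, IsL m 1 lam L → ∀ t : ℝ, |t| ≤ P →
  ∀ X : ℕ, C * ((N : ℝ) * P ^ m) ^ (1 / 2 : ℝ) * (N * P) ^ ε ≤ X →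
    ‖L (1 / 2 + t * Complex.I)‖ *
      ∏ i : Fin m, ∏ j, min 1 ‖(1 / 2 + t * Complex.I : ℂ) - ((i : ℕ) + 1) - mu j‖ ≤
    C * (N * P) ^ ε *
      (1 + ∫ τ : ℝ, k τ * ‖SX lam X (1 / 2 + ((t + τ : ℝ) : ℂ) * Complex.I)‖)

end Pool.Agent.H76.GH
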